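import Mathlib
import Pool.Agent.Lib.helper13.TorusAbs
import Pool.Agent.Lib.helper13.TorusNT

set_option autoImplicit false

namespace Pool.Agent.Results.MP_7de521_nt.WeilTorus

open NumberField

/-- Families of nonzero complex numbers indexed by `ι` with `y (c φ) = conj (y φ)`. -/
def conjFixed {ι : Type} (c : ι → ι) : Subgroup (ι → ℂˣ) where
  carrier := {y | ∀ φ, (y (c φ) : ℂ) = (starRingEnd ℂ) (y φ)}
  one_mem' := fun φ => by simp
  mul_mem' := fun {a b} ha hb φ => by simp [ha φ, hb φ]
  inv_mem' := fun {a} ha φ => by simp [ha φ]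

/-- The group `(K ⊗ ℝ)ˣ` of real points of the Weil restriction torus: families of nonzero
complex numbers indexed by the complex embeddings of `K` and compatible with conjugation. -/
def realPts (K : Type) [Field K] : Subgroup ((K →+* ℂ) → ℂˣ) :=
  conjFixed ComplexEmbedding.conjugate

/-- The inclusion of the rational points `Kˣ` in the real points. -/
def toReal (K : Type) [Field K] : Kˣ →* realPts K where
  toFun x := ⟨fun φ => Units.map (φ : K →* ℂ) x, fun _ => rfl⟩
  map_one' := Subtype.ext (funext fun _ => map_one _)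
  map_mul' x y := Subtype.ext (funext fun _ => map_mul _ x y)

/-- The identity component of a subgroup `C` of a topological group. -/
def identityComponent {G : Type} [Group G] [TopologicalSpace G] [IsTopologicalGroup G]
    (C : Subgroup G) : Subgroup G :=
  (Subgroup.connectedComponentOfOne C).map C.subtype

/-- The identity component of the closure of the image of `L` under `j`. -/
def closureComponent {Γ G : Type} [Group Γ] [Group G] [TopologicalSpace G] [IsTopologicalGroup G]
    (j : Γ →* G) (L : Subgroup Γ) : Subgroup G :=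
  identityComponent (L.map j).topologicalClosure

/-- `A` is a subgroup of finite index in `H`. -/
def FiniteIndexIn {G : Type} [Group G] (A H : Subgroup G) : Prop :=
  A ≤ H ∧ (A.subgroupOf H).FiniteIndex

/-- A subgroup `H` of `G ≤ (ℂˣ) ^ ι` is algebraic if it is cut out of `G` by polynomial equations
in the coordinates (complex coefficients are allowed). -/
def IsAlgebraicSubgroup {ι : Type} (G : Subgroup (ι → ℂˣ)) (H : Subgroup G) : Prop :=
  ∃ S : Set (MvPolynomial ι ℂ),
    ∀ y : G, y ∈ H ↔ ∀ p ∈ S, MvPolynomial.eval (fun φ => (y.1 φ : ℂ)) p = 0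

/-- The identity component of the closure of `j L` in `G` has finite index in some algebraic
subgroup of `G`. -/
def ExpectedAnswer {Γ ι : Type} [Group Γ] (G : Subgroup (ι → ℂˣ)) (j : Γ →* G) (L : Subgroup Γ) :
    Prop :=
  ∃ H : Subgroup G, IsAlgebraicSubgroup G H ∧ FiniteIndexIn (closureComponent j L) H

theorem isClosed_realPts (K : Type) [Field K] :
    IsClosed (realPts K : Set ((K →+* ℂ) → ℂˣ)) := by
  have : (realPts K : Set ((K →+* ℂ) → ℂˣ)) = ⋂ φ,
      {y | (y (ComplexEmbedding.conjugate φ) : ℂ) = (starRingEnd ℂ) (y φ)} := by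
    ext y; simp [realPts, conjFixed]
  rw [this]
  exact isClosed_iInter fun φ => isClosed_eq (Units.continuous_val.comp (continuous_apply _))
    (Complex.continuous_conj.comp (Units.continuous_val.comp (continuous_apply _)))

open Pool.Agent.Lib.H13Torus Pool.Agent.Lib.H13TorusNT in
theorem result : ∃ (K : Type) (_ : Field K) (_ : NumberField K) (L : Subgroup Kˣ), L.FG ∧
    ¬ ExpectedAnswer (realPts K) (toReal K) L := by
  classical
  obtain ⟨K, iF, iN, θ, t, ht0, ht1, ht, hθ, hinj, hroots⟩ := exists_field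
  have hφ : ∀ (φ : K →+* ℂ) i, φ (θ i) ^ 6 + 4 * φ (θ i) ^ 4 + 2 * φ (θ i) ^ 2 - 2 = 0 :=
    fun φ i => by
      have := congrArg φ (hθ i)
      simpa only [map_sub, map_add, map_mul, map_pow, map_ofNat, map_zero] using this
  have htC : (t : ℂ) ^ 6 + 4 * (t : ℂ) ^ 4 + 2 * (t : ℂ) ^ 2 - 2 = 0 := by exact_mod_cast ht
  have hσ : ∀ i, ∃ φ : K →+* ℂ, φ (θ i) = t := fun i => by
    have h1 : (t : ℂ) ∈ (minpoly ℚ (θ i)).rootSet ℂ := by
      rw [minpoly_eq (θ i) (hθ i), Polynomial.mem_rootSet_of_ne (gZ_monic.map _).ne_zero,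
        Polynomial.aeval_map_algebraMap, aeval_gZ, htC]
    rw [← Embeddings.range_eval_eq_rootSet_minpoly K ℂ (θ i)] at h1
    exact h1
  choose σ hσ using hσ
  have htne : (t : ℂ) ≠ -t := by
    intro h
    have : t = -t := by exact_mod_cast h
    linarith
  let f : Fin 3 → (K →+* ℂ) → ℤ := fun i φ =>
    if φ (θ i) = t then 1 else if φ (θ i) = -t then -1 else 0
  have hf : ∀ i j, f i (σ j) = if i = j then 1 else 0 := fun i j => by
    by_cases hij : i = j
    · subst hij; simp [f, hσ]
    · have h1 : σ j (θ i) ^ 2 ≠ (t : ℂ) ^ 2 := fun h => hij (hinj i j ((σ j).injective (by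
        rw [map_pow, map_pow, h, hσ])))
      have h2 : σ j (θ i) ≠ t := fun h => h1 (by rw [h])
      have h3 : σ j (θ i) ≠ -t := fun h => h1 (by rw [h]; ring)
      simp [f, h2, h3, hij]
  have hfc : ∀ i φ, f i (ComplexEmbedding.conjugate φ) = f i φ := fun i φ => by
    have h1 : (starRingEnd ℂ) (φ (θ i)) = t ↔ φ (θ i) = t := by
      rw [← (starRingEnd ℂ).injective.eq_iff, Complex.conj_conj, Complex.conj_ofReal]
    have h2 : (starRingEnd ℂ) (φ (θ i)) = -t ↔ φ (θ i) = -t := by
      rw [← (starRingEnd ℂ).injective.eq_iff, Complex.conj_conj, map_neg, Complex.conj_ofReal]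
    simp only [f, ComplexEmbedding.conjugate_coe_eq, h1, h2]
  have hne : ∀ (s : ℕ), 1 ≤ s → ∀ i, ((s : K) + θ i) / (s - θ i) ≠ 0 := fun s hs i => by
    have h1 : (1 : ℤ) ≤ s := by exact_mod_cast hs
    have h2 : (s : ℤ) ^ 6 + 4 * s ^ 4 + 2 * s ^ 2 - 2 ≠ 0 := by
      have : (1 : ℤ) ≤ s ^ 2 := one_le_pow₀ h1
      have : (0 : ℤ) < s ^ 6 := by positivity
      have : (0 : ℤ) < s ^ 4 := by positivity
      omega
    have h3 : (s : K) ^ 6 + 4 * s ^ 4 + 2 * s ^ 2 - 2 ≠ 0 := by exact_mod_cast h2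
    refine div_ne_zero (fun h => h3 ?_) (fun h => h3 ?_)
    · rw [eq_neg_of_add_eq_zero_left h]; linear_combination hθ i
    · rw [sub_eq_zero.1 h]; exact hθ i
  let x : (s : ℕ) → 1 ≤ s → Fin 3 → Kˣ := fun s hs i => Units.mk0 _ (hne s hs i)
  have hx : ∀ s hs i φ, lg (toReal K (x s hs i)).1 φ =
      Real.log ((s + t) / (s - t)) * f i φ := fun s hs i φ => by
    have hs' : (1 : ℝ) ≤ s := by exact_mod_cast hs
    have e : (((toReal K (x s hs i)).1 φ : ℂˣ) : ℂ) = (s + φ (θ i)) / (s - φ (θ i)) := by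
      simp [toReal, x]
    have p1 : 0 < (s : ℝ) + t := by linarith
    have p2 : 0 < (s : ℝ) - t := by linarith
    rw [lg, e]
    by_cases c1 : φ (θ i) = t
    · simp only [f, c1, if_true, Int.cast_one, mul_one]
      rw [show ((s : ℂ) + t) / (s - t) = (((s + t) / (s - t) : ℝ) : ℂ) by push_cast; rfl,
        Complex.norm_real, Real.norm_eq_abs, Real.log_abs]
    by_cases c2 : φ (θ i) = -t
    · simp only [f, c2, htne.symm, if_false, if_true, Int.cast_neg, Int.cast_one, mul_neg, mul_one]
      rw [show ((s : ℂ) + -t) / (s - -t) = ((((s + t) / (s - t))⁻¹ : ℝ) : ℂ) by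
        rw [inv_div]; push_cast; ring_nf,
        Complex.norm_real, Real.norm_eq_abs, Real.log_abs, Real.log_inv]
    · have c3 : (φ (θ i)).re = 0 :=
        ((hroots _ (hφ φ i)).resolve_left c1).resolve_left c2
      simp only [f, c1, c2, if_false, Int.cast_zero, mul_zero]
      have h4 : ‖(s : ℂ) + φ (θ i)‖ = ‖(s : ℂ) - φ (θ i)‖ := by
        rw [← Complex.norm_conj]
        congr 1
        apply Complex.ext <;> simp [c3]
      rw [norm_div, h4]
      by_cases h5 : ‖(s : ℂ) - φ (θ i)‖ = 0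
      · rw [h5]; simp
      · rw [div_self h5, Real.log_one]
  let ℓ : Fin 3 → Kˣ := ![x 1 le_rfl 1 * x 2 (by norm_num) 2,
    (x 1 le_rfl 0)⁻¹ * x 3 (by norm_num) 2, (x 2 (by norm_num) 0)⁻¹ * (x 3 (by norm_num) 1)⁻¹]
  refine ⟨K, iF, iN, Subgroup.closure (Set.range ℓ),
    (Subgroup.fg_iff _).2 ⟨_, rfl, Set.finite_range ℓ⟩, ?_⟩
  rintro ⟨H, ⟨S, hS⟩, hle, hfin⟩
  rw [closureComponent, MonoidHom.map_closure, ← Set.range_comp] at hle hfin
  refine abstract_main (realPts K) (isClosed_realPts K) f σ hf (fun z φ => ?_) _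
    (linIndep t ht0 ht1 ht) (toReal K ∘ ℓ) (fun φ => ?_) (fun φ => ?_) (fun φ => ?_) H S hS hle hfin
  · rw [expU_val, expU_val, ← Complex.exp_conj, Complex.conj_ofReal]
    simp only [hfc]
  · simp only [ℓ, Function.comp, Matrix.cons_val_zero, map_mul, Subgroup.coe_mul, lg_mul, hx]
    simp
  · simp only [ℓ, Function.comp, Matrix.cons_val_one, Matrix.cons_val_zero, map_mul, map_inv,
      Subgroup.coe_mul, Subgroup.coe_inv, lg_mul, lg_inv, hx]
    simp
    ring
  · simp only [ℓ, Function.comp, Matrix.cons_val_two, Matrix.tail_cons, Matrix.head_cons, map_mul,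
      map_inv, Subgroup.coe_mul, Subgroup.coe_inv, lg_mul, lg_inv, hx]
    simp
    ring

end Pool.Agent.Results.MP_7de521_nt.WeilTorus
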